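import Pool.Agent.Helper61.TQ.Core

set_option autoImplicit false

/-! Module HASH: pairwise independence of the hash functions. -/

namespace Pool.Agent.Helper61.TQ

theorem hash_foldl (l : List (Bool × Bool)) (s : Bool) :
    l.foldl (fun (s : Bool) (p : Bool × Bool) => Bool.xor s (p.1 && p.2)) s =
      Bool.xor s (l.foldl (fun (s : Bool) (p : Bool × Bool) => Bool.xor s (p.1 && p.2)) false) := by
  induction l generalizing s with
  | nil => simp
  | cons a l ih =>
    rw [List.foldl_cons, List.foldl_cons, ih, ih (Bool.xor false (a.1 && a.2))]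
    simp

theorem hash_ip_cons (b c : Bool) (v x : W) :
    ip (b :: v) (c :: x) = Bool.xor (b && c) (ip v x) := by
  unfold ip
  rw [List.zip_cons_cons, List.foldl_cons, hash_foldl]
  simp

theorem hash_ind_not (p : Prop) : ind p + ind (¬ p) = 1 := by
  unfold ind
  by_cases h : p <;> simp [h]

theorem hash_half (hA : ST_AVG) (n : ℕ) (f g : W → ℝ) (h : ∀ v, f v + g v = 1) :
    (avg n f + avg n g) / 2 = 1 / 2 := by
  obtain ⟨-, h2, -, h4, -⟩ := hA
  rw [← h2, funext h, h4]

theorem hash_row (hA : ST_AVG) (n : ℕ) (x : W) :
    avg (n + 1) (fun row => ind (rowZ row x = true)) = 1 / 2 := by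
  rw [avg]
  apply hash_half hA
  intro v
  have := hash_ind_not (rowZ (false :: v) x = true)
  rw [← this]
  congr 2
  simp [rowZ]

theorem hash_ip (hA : ST_AVG) (n : ℕ) : ∀ x y : W, x.length = n → y.length = n → x ≠ y →
    avg n (fun v => ind (ip v x = ip v y)) = 1 / 2 := by
  induction n with
  | zero =>
    intro x y hx hy hxy
    rw [List.length_eq_zero_iff] at hx hy
    exact absurd (hx.trans hy.symm) hxy
  | succ n ih =>
    intro x y hx hy hxy
    obtain ⟨a, x, rfl⟩ := List.exists_cons_of_length_eq_add_one hx
    obtain ⟨b, y, rfl⟩ := List.exists_cons_of_length_eq_add_one hy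
    simp only [List.length_cons, add_left_inj] at hx hy
    rw [avg]
    simp only [hash_ip_cons]
    by_cases hab : a = b
    · subst hab
      have hxy' : x ≠ y := fun h => hxy (by rw [h])
      have := ih x y hx hy hxy'
      simp only [Bool.false_and, Bool.false_xor, Bool.true_and, Bool.xor_right_inj]
      rw [this]
      norm_num
    · apply hash_half hA
      intro v
      rw [← hash_ind_not (ip v x = ip v y)]
      congr 2
      · simp
      · rcases a <;> rcases b <;> rcases ip v x <;> rcases ip v y <;> simp_all

theorem hash_row2 (hA : ST_AVG) (n : ℕ) (x y : W) (hx : x.length = n) (hy : y.length = n)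
    (hxy : x ≠ y) :
    avg (n + 1) (fun row => ind ((rowZ row x && rowZ row y) = true)) = 1 / 4 := by
  rw [avg]
  obtain ⟨-, h2, -, h4, -⟩ := id hA
  rw [← h2]
  have h := hash_ip hA n x y hx hy hxy
  have e : (fun v => ind ((rowZ (false :: v) x && rowZ (false :: v) y) = true) +
      ind ((rowZ (true :: v) x && rowZ (true :: v) y) = true)) =
      fun v => ind (ip v x = ip v y) := by
    funext v
    unfold ind rowZ
    rcases h1 : ip v x <;> rcases h2 : ip v y <;> simp [h1, h2]
  rw [e, h]
  norm_num

theorem hash_prod (k : ℕ) (g : ℕ → ℝ) (d : ℕ) :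
    ((List.range (k + d)).map (fun i => if i < k then g i else 1)).prod =
      ((List.range k).map g).prod := by
  induction d with
  | zero =>
    congr 1
    apply List.map_congr_left
    intro i hi
    rw [if_pos (by simpa using hi)]
  | succ d ih =>
    rw [← add_assoc, List.prod_range_succ, ih, if_neg (by omega), mul_one]

theorem hash_all (k : ℕ) (p : ℕ → Bool) :
    ind ((List.range k).all p = true) = ((List.range k).map (fun i => ind (p i = true))).prod := by
  induction k with
  | zero => simp [ind]
  | succ k ih =>
    rw [List.prod_range_succ, ← ih, List.range_succ, List.all_append]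
    unfold ind
    by_cases h1 : (List.range k).all p = true <;> by_cases h2 : p k = true <;> simp [h1, h2]

theorem hash_main (hA : ST_AVG) (n k : ℕ) (hk : k ≤ n + 1) (q : W → Bool) (c : ℝ)
    (hq : avg (n + 1) (fun row => ind (q row = true)) = c) :
    avg (hs n) (fun s => ind ((List.range k).all
      (fun i => q ((s.drop (i * (n + 1))).take (n + 1))) = true)) = c ^ k := by
  obtain ⟨d, hd⟩ := Nat.exists_eq_add_of_le hk
  obtain ⟨-, -, -, h4, -, -, h7, -⟩ := hA
  have h := h7 (n + 1) (n + 1) (fun i w => if i < k then ind (q w = true) else 1)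
  have e1 : (fun s : W => ((List.range (n + 1)).map (fun i => if i < k then
      ind (q ((s.drop (i * (n + 1))).take (n + 1)) = true) else 1)).prod) =
      fun s => ind ((List.range k).all
      (fun i => q ((s.drop (i * (n + 1))).take (n + 1))) = true) := by
    funext s
    rw [hash_all, hd, hash_prod]
  have e2 : ((List.range (n + 1)).map (fun i => avg (n + 1)
      (fun w => if i < k then ind (q w = true) else 1))).prod = c ^ k := by
    have : (fun i => avg (n + 1) (fun w => if i < k then ind (q w = true) else 1)) =
        fun i => if i < k then c else 1 := by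
      funext i
      split_ifs with hi
      · exact hq
      · exact h4 _ _
    rw [this, hd, hash_prod]
    simp
  rw [← e1, ← e2]
  exact h

theorem st_HASH (hA : ST_AVG) : ST_HASH := by
  intro n k hk
  refine ⟨fun x _ => ?_, fun x y hx hy hxy => ?_⟩
  · exact hash_main hA n k hk (fun row => rowZ row x) (1 / 2) (hash_row hA n x)
  · rw [← hash_main hA n k hk (fun row => rowZ row x && rowZ row y) (1 / 4)
      (hash_row2 hA n x y hx hy hxy)]
    congr 1
    funext s
    congr 1
    unfold hz
    simp only [List.all_eq_true, List.mem_range, Bool.and_eq_true, eq_iff_iff]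
    exact ⟨fun h i hi => ⟨h.1 i hi, h.2 i hi⟩, fun h => ⟨fun i hi => (h i hi).1,
      fun i hi => (h i hi).2⟩⟩

end Pool.Agent.Helper61.TQ
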