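import Pool.Agent.Helper61.TQ.Core
import Pool.Agent.Helper58.PolyDecode

set_option autoImplicit false

/-! Module PP: ranks and the self-reduction are computable in polynomial time. -/

namespace Pool.Agent.Helper61.TQ

open Pool.Agent.Helper58 Pool.Agent.Helper53.CL Pool.Agent.Helper52.Grid

theorem pp_snoc (v : W) (c : Bool) : sz (v ++ [c]) ≤ sz v + 4 := by
  have h4 := sz_append v [c]
  rw [sz_lcons, sz_lnil] at h4
  have := sz_bool c
  omega

theorem pp_leW {γ : Type} [Enc γ] {u v : γ → W} (hu : PTf u) (hv : PTf v) :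
    PTf (fun x => leW (u x) (v x)) := by
  have h := ptf_foldl_add (γ := γ) (l := fun x => (u x).zip (v x)) (init := fun _ => (0 : ℕ))
    (step := fun _ s p => if s = 0 then (if p.1 = p.2 then 0 else (bif p.2 then 1 else 2)) else s)
    (K := fun _ => 10) (by fun_prop) (PTf.const _) (by fun_prop) (PB.const _) (by
      rintro x s ⟨a, b⟩ _
      simp only [sz_nat]
      split_ifs
      · omega
      · cases b <;> simp
      · omega)
  unfold leW
  fun_prop

/-- binary search in polynomial time -/
theorem pp_bs {γ : Type} [Enc γ] {G : γ → W → Bool} {m : γ → ℕ}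
    (hG : PTf (fun p : γ × W => G p.1 p.2)) (hm : PTf m) : PTf (fun x => bs (G x) (m x)) := by
  unfold bs
  refine ptf_foldl_add (γ := γ) (l := fun x => (List.range (m x)).reverse)
    (init := fun _ => ([] : W))
    (step := fun x u k => bif G x (u ++ false :: one k) then u ++ [false] else u ++ [true])
    (K := fun _ => 10) (by fun_prop) (PTf.const _) ?_ (PB.const _) ?_
  · have h1 : PTf (fun p : γ × (W × ℕ) => G p.1 (p.2.1 ++ false :: one p.2.2)) := by
      unfold one
      exact PTf.comp (g := fun p : γ × W => G p.1 p.2) hG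
        (f := fun p : γ × (W × ℕ) => (p.1, p.2.1 ++ false :: List.replicate p.2.2 true))
        (by fun_prop)
    exact PTf.cond h1 (by fun_prop) (by fun_prop)
  · intro x u k _
    have h1 := pp_snoc u false
    have h2 := pp_snoc u true
    rcases G x (u ++ false :: one k) with _ | _
    · simp only [cond_false]; omega
    · simp only [cond_true]; omega

theorem pp_rk (S : Sys) : PTf (fun x : W × W => S.rk x.1 x.2) := by
  have hm : PTf (fun x : W × W => S.m x.1) := PTf.comp S.pm (PTf.fst PTf.id)
  have hg : PTf (fun p : (W × W) × W => S.g p.1.1 p.1.2 p.2) := by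
    unfold Sys.g
    have h1 : PTf (fun p : (W × W) × W => S.cut p.1.1 p.2) :=
      PTf.comp (g := fun x : W × W => S.cut x.1 x.2) S.pcut
        (f := fun p : (W × W) × W => (p.1.1, p.2)) (by fun_prop)
    exact PTf.comp (g := fun x : W × W => S.b x.1 x.2) S.pb
      (f := fun p : (W × W) × W => (S.cut p.1.1 p.2, p.1.2)) (by fun_prop)
  have hbs : PTf (fun x : W × W => bs (S.g x.1 x.2) (S.m x.1)) :=
    pp_bs (G := fun x : W × W => S.g x.1 x.2) hg hm
  have hone : PTf (fun x : W × W => one (S.m x.1)) := by
    unfold one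
    fun_prop
  have h1 : PTf (fun x : W × W => S.g x.1 x.2 (one (S.m x.1))) :=
    PTf.comp (g := fun p : (W × W) × W => S.g p.1.1 p.1.2 p.2) hg
      (f := fun x : W × W => (x, one (S.m x.1))) (by fun_prop)
  unfold Sys.rk
  fun_prop

theorem pp_P (S : Sys) : PTf (fun x : W × W => S.P x.1 x.2) := by
  have hm : PTf (fun x : W × W => S.m x.2) := PTf.comp S.pm (PTf.snd PTf.id)
  unfold Sys.P
  refine ptf_foldl_add (γ := W × W) (l := fun x => List.range (S.m x.2))
    (init := fun _ => ([] : W))
    (step := fun x u _ => bif leW (S.rk x.1 (S.node x.2 (u ++ [false])))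
      (S.rk x.1 (S.node x.2 (u ++ [true]))) then u ++ [false] else u ++ [true])
    (K := fun _ => 10) (by fun_prop) (PTf.const _) ?_ (PB.const _) ?_
  · have hn : ∀ c : Bool, PTf (fun p : (W × W) × (W × ℕ) => S.node p.1.2 (p.2.1 ++ [c])) := by
      intro c
      exact PTf.comp (g := fun x : W × W => S.node x.1 x.2) S.pnode
        (f := fun p : (W × W) × (W × ℕ) => (p.1.2, p.2.1 ++ [c])) (by fun_prop)
    have hr : ∀ c : Bool, PTf (fun p : (W × W) × (W × ℕ) =>
        S.rk p.1.1 (S.node p.1.2 (p.2.1 ++ [c]))) := by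
      intro c
      have := hn c
      exact PTf.comp (g := fun x : W × W => S.rk x.1 x.2) (pp_rk S)
        (f := fun p : (W × W) × (W × ℕ) => (p.1.1, S.node p.1.2 (p.2.1 ++ [c]))) (by fun_prop)
    have h1 := pp_leW (hr false) (hr true)
    fun_prop
  · intro x u k _
    have h1 := pp_snoc u false
    have h2 := pp_snoc u true
    rcases leW (S.rk x.1 (S.node x.2 (u ++ [false]))) (S.rk x.1 (S.node x.2 (u ++ [true])))
      with _ | _
    · simp only [cond_false]; omega
    · simp only [cond_true]; omega

theorem st_PP : ST_PP := by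
  refine ⟨pp_leW (by fun_prop) (by fun_prop), fun S => ?_⟩
  unfold Sys.solves
  have := pp_P S
  exact PTf.comp (g := fun x : W × W => S.V x.1 x.2) S.pV
    (f := fun x : W × W => (x.2, S.P x.1 x.2)) (by fun_prop)

end Pool.Agent.Helper61.TQ
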